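import Pool.Agent.H639R3.G.Div

set_option autoImplicit false

/-!
# MP_3ed42e_nt, Q1: every affine subspace `L_A` with `ω(A) < n` is of Groshev type

Outline.  For `q = (q', q'')` the value of the form `q` at the point `(x, x̃ A)` is `a + b · x`, where
`(a, b) = (0, q') + A q''`.  Since `ω(A) < n` there are `β < 2 ^ n` and `c > 0` with
`‖A q''‖ ≥ c / β ^ t` for `0 < |q''| ≤ 2 ^ t`; a pigeonhole argument at all dyadic scales gives
`∑ 1 / ‖A q''‖ ≤ K * β ^ t` (sum over `0 < |q''| ≤ 2 ^ t`).  Hence the forms of small slope `b`
contribute a negligible measure, and the union bound gives the convergence half and shows that in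
every ball, for large `t`, Dirichlet's theorem provides at half of the points a form with `|q| ≤ 2 ^ t`
of slope at least `κ * 2 ^ t` whose value is less than `2 ^ (-t n)`.  Around a maximal separated set of such
points one takes pieces of slabs; their unions over `t` are quasi-independent, a second moment
argument shows that the limsup set fills a fixed proportion of every ball, and Lebesgue's density
theorem finishes the divergence half.
-/

namespace Pool.Agent.Results.MP_3ed42e_nt.GroshevType

open Pool.Agent.H639R3.G

/-- For all `d, m ≥ 1` and every real `(d + 1) × m` matrix `A` whose Diophantine exponent `ω(A)` is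
less than `n = d + m`, the affine subspace `L_A = {(x, x̃ A)}` of `ℝ ^ n` is of Groshev type, both
for convergence and for divergence. -/
theorem result (d m : ℕ) (hd : 1 ≤ d) (hm : 1 ≤ m) (A : Matrix (Fin (d + 1)) (Fin m) ℝ)
    (hA : exponent A < ((d + m : ℕ) : EReal)) :
    GroshevConvergence A ∧ GroshevDivergence A := by
  obtain ⟨β, c, h⟩ := exists_hyp hd A hA
  exact ⟨groshevConvergence_of_hyp hd hm h, groshevDivergence_of_hyp hd hm h⟩

end Pool.Agent.Results.MP_3ed42e_nt.GroshevType
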